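import Pool.Agent.H30.VX.Targets

/-!
# MP_d32443_co, large `k`: row T2C
-/

set_option autoImplicit false

namespace Pool.Agent.H11.VX

open Finset Pool.Agent.H48.CE Pool.Agent.H30.VR Pool.Agent.H30.VX

theorem pf_T2C (hEAR : T_EAR) (hEXT : T_EXT) : T_T2C := by
  classical
  intro V _ G W L R k e b hcon hNC hcov hR hL h2k hcard he hk hb hRne hRcard
  have hLW : Disjoint W L := by
    rw [disjoint_left]
    intro v hv hv'
    exact (hL v hv').1 hv
  have hS : (W ∪ L).card = 2 * k + 1 := by
    rw [card_union_of_disjoint hLW, hcard]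
  obtain ⟨v₀, hv₀⟩ := hRne
  obtain ⟨x, hx, y, hy, l, hl, hPt, hout⟩ := hEAR G (W ∪ L) hcon (by omega)
    ⟨v₀, fun h => by
      rw [mem_union] at h
      have h1 := hR v₀ hv₀
      rcases h with h | h
      · exact h1.1 h
      · exact h1.2 h⟩
  rw [mem_union] at hx hy
  have hlR : l.toFinset ⊆ R := by
    intro v hv
    rw [List.mem_toFinset] at hv
    have h1 := hout v hv
    rw [mem_union] at h1
    rcases hcov v with h | h | h
    · exact absurd (Or.inl h) h1
    · exact absurd (Or.inr h) h1
    · exact h
  have hnd : l.Nodup := by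
    have h1 := hPt.1
    rw [List.nodup_cons] at h1
    exact h1.2.of_append_left
  have hlen : l.length ≤ R.card := by
    rw [← List.toFinset_card_of_nodup hnd]
    exact card_le_card hlR
  have hlpos : 1 ≤ l.length := List.length_pos_of_ne_nil hl
  have hLc : L.card ≤ e + 1 := by omega
  have key := hEXT G W L e b 1 (fun _ => x) (fun _ => y) (fun _ => l) hNC hL
    (fun _ => ⟨hx, hy, hPt, fun v hv => by
      have h1 := hout v hv
      rw [mem_union] at h1
      exact ⟨fun h => h1 (Or.inl h), fun h => h1 (Or.inr h)⟩⟩)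
    (fun i j hij => absurd (Subsingleton.elim i j) hij)
    (by omega) (by omega)
    (by
      rw [Fin.sum_univ_one]
      omega)
  rw [Fin.sum_univ_one] at key
  refine hasRun_of_interval (x := 3) fun N h3 hN => key N h3 ?_
  omega

end Pool.Agent.H11.VX
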